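import Pool.Agent.PST.StmtsUD

open scoped BigOperators TensorProduct PowerSeries

noncomputable section

namespace Pool.Agent.PST.UC.H22

theorem qfa : QfaStmt := by
  intro F V B Bs H Hs _ _ _ _ _ _ _ _ _ _ W αB γB qB αH γH π πs h1 h2 hsc hsurj hker hγ
  -- `π ∘ qB` kills the augmentation part
  have k1 : ∀ b, b ∈ Aug F⟦X⟧ (γB.comp (⊤ : Subgroup W).subtype) ⊤ → π (qB b) = 0 := by
    intro b hb
    unfold Aug at hb
    induction hb using Submodule.span_induction with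
    | mem x hx =>
      obtain ⟨n, b, -, rfl⟩ := hx
      rw [map_mul, map_sub, map_one]
      have e1 : qB ((γB.comp (⊤ : Subgroup W).subtype) n) = αB ((n : W) : V) := hγ n
      rw [e1]
      rw [h1.ker]
      refine Submodule.subset_span ⟨(n : W), qB b, trivial, rfl⟩
    | zero => rw [map_zero, map_zero]
    | add x y _ _ hx hy => rw [map_add, map_add, hx, hy, add_zero]
    | smul r x _ hx =>
      rw [Algebra.smul_def, map_mul, hsc, map_mul, hx, mul_zero]
  have k2 : ∀ a, a ∈ Aug F (αB.comp W.subtype) ⊤ →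
      ∃ b'' ∈ Aug F⟦X⟧ (γB.comp (⊤ : Subgroup W).subtype) ⊤, qB b'' = a := by
    intro a ha
    unfold Aug at ha
    induction ha using Submodule.span_induction with
    | mem x hx =>
      obtain ⟨n, b, -, rfl⟩ := hx
      obtain ⟨b0, rfl⟩ := hsurj b
      refine ⟨(γB n - 1) * b0, Submodule.subset_span ⟨⟨n, trivial⟩, b0, trivial, rfl⟩, ?_⟩
      rw [map_mul, map_sub, map_one, hγ]
      rfl
    | zero => exact ⟨0, Submodule.zero_mem _, map_zero _⟩
    | add x y _ _ hx hy =>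
      obtain ⟨x', hx1, hx2⟩ := hx
      obtain ⟨y', hy1, hy2⟩ := hy
      exact ⟨x' + y', Submodule.add_mem _ hx1 hy1, by rw [map_add, hx2, hy2]⟩
    | smul r x _ hx =>
      obtain ⟨x', hx1, hx2⟩ := hx
      refine ⟨(PowerSeries.C r : F⟦X⟧) • x', Submodule.smul_mem _ _ hx1, ?_⟩
      rw [Algebra.smul_def, map_mul, hsc, PowerSeries.constantCoeff_C, hx2, Algebra.smul_def]
  have hkk : RingHom.ker (πs : Bs →+* Hs) ≤ RingHom.ker ((π : B →+* H).comp qB) := by
    intro b hb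
    rw [RingHom.mem_ker] at hb ⊢
    exact k1 b ((h2.ker b).1 hb)
  let q1 : Hs →+* H := RingHom.liftOfSurjective (πs : Bs →+* Hs) h2.surj
    ⟨(π : B →+* H).comp qB, hkk⟩
  have hq1 : ∀ b, q1 (πs b) = π (qB b) := fun b =>
    RingHom.liftOfRightInverse_comp_apply (πs : Bs →+* Hs) (Function.surjInv h2.surj)
      (Function.rightInverse_surjInv h2.surj) ⟨(π : B →+* H).comp qB, hkk⟩ b
  refine ⟨q1, hq1, fun r => ?_, fun h => ?_, fun h hh => ?_⟩
  · have e : algebraMap F⟦X⟧ Hs r = πs (algebraMap F⟦X⟧ Bs r) := (AlgHom.commutes πs r).symm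
    rw [e, hq1, hsc, AlgHom.commutes]
  · obtain ⟨b, rfl⟩ := h1.surj h
    obtain ⟨b', rfl⟩ := hsurj b
    exact ⟨πs b', hq1 b'⟩
  · obtain ⟨b, rfl⟩ := h2.surj h
    rw [hq1] at hh
    obtain ⟨b'', hb1, hb2⟩ := k2 _ ((h1.ker _).1 hh)
    obtain ⟨b', hb'⟩ := hker (b - b'') (by rw [map_sub, hb2, sub_self])
    refine ⟨πs b', ?_⟩
    have e1 : b = (PowerSeries.X : F⟦X⟧) • b' + b'' := by rw [← hb']; abel
    rw [e1, map_add, (h2.ker b'').2 hb1, add_zero, map_smul]

end Pool.Agent.PST.UC.H22
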